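import Pool.Agent.Lib.Pfd3312.Upper

set_option autoImplicit false

/-!
Linear upper bound with constant `6/13` for `f(d)`, the least number of parts in a partition of
`{1,2,3}^d` into sets in general position.
-/

namespace Pool.Agent.Results.MP_fd3312_co.LinearUpperBound

open Pool.Agent.Lib.Pfd3312

theorem result : ∀ d : ℕ, 2 ≤ d → f d ≤ 2 * ((3 * d + 8) / 13) + 1 := by
  intro d hd
  exact f_le_of_col (col_upper ((3 * d + 8) / 13) (by omega) (by omega))

end Pool.Agent.Results.MP_fd3312_co.LinearUpperBound
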