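import Pool.Agent.Lib.Pfd3312.Lower

set_option autoImplicit false

/-!
Logarithmic lower bound for `f(d)`, the least number of parts in a partition of `{1,2,3}^d`
into sets in general position: `f(d) > k` whenever
`(2^k - 1) (2 ⌈log₂ k⌉ + 1) ≤ d + k ⌈log₂ k⌉`.
-/

namespace Pool.Agent.Results.MP_fd3312_co.LogLowerBound

open Pool.Agent.Lib.Pfd3312

theorem result : ∀ k d : ℕ,
    (2 ^ k - 1) * (2 * Nat.clog 2 k + 1) ≤ d + k * Nat.clog 2 k → k < f d :=
  fun _ _ h => lt_f_of_not_col (not_col h)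

end Pool.Agent.Results.MP_fd3312_co.LogLowerBound
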