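import Pool.Agent.Lib.Pfd3312.LowCls
import Pool.Agent.Lib.Pfd3312.LowMono
import Pool.Agent.Lib.Pfd3312.LowUp

set_option autoImplicit false

/-!
Partitions of `{1,2,3}^d` into few sets in general position are complex.

The points of `{1,2,3}^d` are written as `sgn A v`: the coordinate is `2` exactly off the set `A`
(the support), and on `A` it is `3` or `1` according to the sign vector `v`. All partitions into `k`
sets in general position are sensitive to noise and have large certificates at every sign vector.
Hence a partition which on every support is approximated by small circuits of constant depth has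
almost `d` sets, one approximated by few unate functions has about `√d` sets, and one which changes
only `M` times along increasing sequences of sign vectors has about `d / M` sets. A partition given by
an additive statistic with `d ^ O(L)` values has at least about `d / L` sets, which is the right order.
-/

namespace Pool.Agent.Results.MP_fd3312_co.LowComplexity

open Pool.Agent.Lib.Pfd3312 Pool.Agent.Lib.Pfd3312.Low Finset

theorem result (d k : ℕ) :
    -- all partitions `c` into `k` sets in general position
    (∀ c : (Fin d → Fin 3) → Fin k, (∀ a, GeneralPosition (c ⁻¹' {a})) →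
      -- noise sensitivity
      (∀ t w b : ℕ, 1 ≤ t → w * t ≤ b → b ≤ d →
        (w : ℝ) + 1 - k ≤ ∑ j ∈ range w, ((w : ℝ) - j) * noi c (b - j * t) t) ∧
      (∀ t b : ℕ, 1 ≤ t → (2 * k - 1) * t ≤ b → b ≤ d →
        ∃ j < 2 * k - 1, 1 / (2 * (k : ℝ) - 1) ≤ noi c (b - j * t) t) ∧
      -- certificates
      (∀ (v : Fin d → Bool) (r : ℕ), (r + 1) * k ≤ d → ∃ A : Finset (Fin d),
        ∀ E : Finset (Fin d), E.card ≤ r →
          ∃ u : Fin d → Bool, (∀ i ∈ E, u i = v i) ∧ c (sgn A u) ≠ c (sgn A v)) ∧
      -- at most `M` changes along increasing sequences of sign vectors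
      ∀ (e : Fin d → Bool) (M : ℕ), AltLe c e M → d < (2 * k - 1) * (M + 1)) ∧
    -- partitions approximated by functions given by circuits of depth `h` with `S` gates
    (∀ m h S s : ℕ, 1 ≤ m → 1 ≤ h → 1 ≤ s → S * d ≤ 2 ^ s →
      DetCol d k m {f | P28cd.Circ (Lit d) h S f} → d < 14 * k * m * (32 * s) ^ (h - 1)) ∧
    -- partitions approximated by unate functions
    (∀ m : ℕ, 1 ≤ m → DetCol d k m {f | Unate f} → d < (4 * k * m) ^ 2) ∧
    -- additive statistics
    (∀ L : ℕ, 1 ≤ L → 2 ^ (16 * L) ≤ d →
      (AddCol d k ((2 * d + 1) ^ (L + 2)) → d < 8 * (L + 3) * k) ∧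
      (73 * d ≤ L * k → AddCol d k ((2 * d + 1) ^ (L + 2)))) := by
  refine ⟨fun c hc => ?_, fun _ _ _ _ hm hh hs hS h => detCol_circ hm hh hs hS h,
    fun _ hm h => detCol_unate hm h,
    fun _ hL hd => ⟨fun h => addCol_lower' hL hd h, fun h => addCol_upper hL hd h⟩⟩
  have hk : 1 ≤ k := lt_of_le_of_lt (Nat.zero_le _) (c (fun _ => 0)).isLt
  have hg := good_of_generalPosition hc
  exact ⟨fun _ _ _ ht hd hb => noise_sum hg ht hd hb,
    fun _ _ ht hd hb => noise_exists hg hk ht hd hb,
    fun v _ hr => cert_exists hg v hr, fun _ _ h => alt_lower hg hk h⟩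

end Pool.Agent.Results.MP_fd3312_co.LowComplexity
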