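import Pool.Agent.Lib.Pfd3312.Behrend

set_option autoImplicit false

/-!
Sublinear upper bound for `f(d)`, the least number of parts in a partition of `{1,2,3}^d` into
sets in general position: `f(d) ≤ (8 + o(1)) d / log₂ d`.
-/

namespace Pool.Agent.Results.MP_fd3312_co.SublinearUpperBound

open Pool.Agent.Lib.Pfd3312 Pool.Agent.Lib.Pfd3312.Sub Filter Topology

lemma bound (N k d l : ℕ) (hN : 1 ≤ N) (hk : 1 ≤ k) (_h1 : 2 ^ l ≤ d) (h2 : d < 2 ^ (l + 1))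
    (hl : 8 * (N + 1) * k ≤ l) :
    f d ≤ d / (N * k) + (4 * (N * k) + 5) * 128 * 2 ^ (l - 4 * k) := by
  set L := N * k with hL
  have hL1 : 1 ≤ L := Nat.mul_pos hN hk
  set b := (l + 2) / 4 with hb
  have hbig : 2 * d * (2 * d + 1) ^ L < (2 * 2 ^ b) ^ (4 * (L + 1)) := by
    have e1 : (2 * 2 ^ b) ^ (4 * (L + 1)) = (2 ^ (4 * (b + 1))) ^ (L + 1) := by
      rw [← pow_succ', ← pow_mul, ← pow_mul]
      congr 1; ring
    rw [e1]
    have e2 : 2 ^ (l + 2) ≤ 2 ^ (4 * (b + 1)) := Nat.pow_le_pow_right (by norm_num) (by omega)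
    have e3 : 2 ^ (l + 2) = 2 * 2 ^ (l + 1) := by rw [pow_succ]; ring
    have e4 : 2 * d + 1 ≤ 2 ^ (4 * (b + 1)) := by omega
    calc 2 * d * (2 * d + 1) ^ L < (2 * d + 1) * (2 * d + 1) ^ L :=
          Nat.mul_lt_mul_of_pos_right (by omega) (by positivity)
      _ = (2 * d + 1) ^ (L + 1) := by rw [pow_succ]; ring
      _ ≤ (2 ^ (4 * (b + 1))) ^ (L + 1) := Nat.pow_le_pow_left e4 _
  have hcol := f_le_of_col (col_behrend d L (2 ^ b) (4 * (L + 1)) hL1 (by positivity) hbig)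
  refine hcol.trans (Nat.add_le_add_left ?_ _)
  have hkey : 4 * L + 2 * (b + 1) + 4 ≤ 7 + (l - 4 * k) := by
    have : 8 * (N + 1) * k = 8 * L + 8 * k := by rw [hL]; ring
    omega
  have e5 : 4 * (L + 1) * (2 * 2 ^ b) ^ 2 + 1 ≤ (4 * L + 5) * 2 ^ (2 * (b + 1)) := by
    have e6 : (2 * 2 ^ b) ^ 2 = 2 ^ (2 * (b + 1)) := by
      rw [← pow_succ', ← pow_mul]; congr 1; ring
    rw [e6]
    have e7 : 1 ≤ 2 ^ (2 * (b + 1)) := Nat.one_le_two_pow
    nlinarith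
  calc 2 ^ (4 * (L + 1)) * (4 * (L + 1) * (2 * 2 ^ b) ^ 2 + 1)
      ≤ 2 ^ (4 * (L + 1)) * ((4 * L + 5) * 2 ^ (2 * (b + 1))) := Nat.mul_le_mul_left _ e5
    _ = (4 * L + 5) * 2 ^ (4 * L + 2 * (b + 1) + 4) := by
        rw [show 4 * L + 2 * (b + 1) + 4 = 4 * (L + 1) + 2 * (b + 1) by ring, pow_add]; ring
    _ ≤ (4 * L + 5) * 2 ^ (7 + (l - 4 * k)) :=
        Nat.mul_le_mul_left _ (Nat.pow_le_pow_right (by norm_num) hkey)
    _ = (4 * L + 5) * 128 * 2 ^ (l - 4 * k) := by rw [pow_add]; ring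

/-- The factor arising in the estimate. -/
noncomputable def g (N : ℕ) (k : ℕ) : ℝ :=
  (1 / ((N : ℝ) * k) + (4 * (N * k) + 5) * 128 / 16 ^ k) * (8 * (N + 1) * (k + 1))

lemma g_tendsto (N : ℕ) (hN : 1 ≤ N) :
    Tendsto (g N) atTop (𝓝 (8 * (N + 1) / N)) := by
  have hN0 : (N : ℝ) ≠ 0 := by
    have : (1 : ℝ) ≤ N := by exact_mod_cast hN
    linarith
  have t0 : Tendsto (fun n : ℕ => (n : ℝ) ^ 0 / (16 : ℝ) ^ n) atTop (𝓝 0) :=
    tendsto_pow_const_div_const_pow_of_one_lt 0 (by norm_num)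
  have t1 : Tendsto (fun n : ℕ => (n : ℝ) ^ 1 / (16 : ℝ) ^ n) atTop (𝓝 0) :=
    tendsto_pow_const_div_const_pow_of_one_lt 1 (by norm_num)
  have t2 : Tendsto (fun n : ℕ => (n : ℝ) ^ 2 / (16 : ℝ) ^ n) atTop (𝓝 0) :=
    tendsto_pow_const_div_const_pow_of_one_lt 2 (by norm_num)
  have ti : Tendsto (fun n : ℕ => 1 / (n : ℝ)) atTop (𝓝 0) := tendsto_one_div_atTop_nhds_zero_nat
  have hsum : Tendsto (fun n : ℕ => 8 * ((N : ℝ) + 1) / N * (1 + 1 / (n : ℝ)) +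
      (128 * (8 * ((N : ℝ) + 1)) * (4 * N) * ((n : ℝ) ^ 2 / (16 : ℝ) ^ n) +
       128 * (8 * ((N : ℝ) + 1)) * (4 * N + 5) * ((n : ℝ) ^ 1 / (16 : ℝ) ^ n) +
       128 * (8 * ((N : ℝ) + 1)) * 5 * ((n : ℝ) ^ 0 / (16 : ℝ) ^ n))) atTop
      (𝓝 (8 * ((N : ℝ) + 1) / N * (1 + 0) +
        (128 * (8 * ((N : ℝ) + 1)) * (4 * N) * 0 +
        128 * (8 * ((N : ℝ) + 1)) * (4 * N + 5) * 0 +
        128 * (8 * ((N : ℝ) + 1)) * 5 * 0))) :=
    ((tendsto_const_nhds.add ti).const_mul _).add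
      (((t2.const_mul _).add (t1.const_mul _)).add (t0.const_mul _))
  have hlim : (8 * ((N : ℝ) + 1) / N * (1 + 0) +
        (128 * (8 * ((N : ℝ) + 1)) * (4 * N) * 0 +
        128 * (8 * ((N : ℝ) + 1)) * (4 * N + 5) * 0 +
        128 * (8 * ((N : ℝ) + 1)) * 5 * 0)) = 8 * (N + 1) / N := by ring
  rw [hlim] at hsum
  refine hsum.congr' ?_
  filter_upwards [eventually_ge_atTop 1] with n hn
  have hn0 : (n : ℝ) ≠ 0 := by
    have : (1 : ℝ) ≤ n := by exact_mod_cast hn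
    linarith
  have h16 : (16 : ℝ) ^ n ≠ 0 := by positivity
  unfold g
  field_simp
  ring

/-- `f(d) ≤ (8 + o(1)) d / log₂ d`. -/
theorem result : ∀ A : ℝ, 8 < A →
    ∀ᶠ d : ℕ in atTop, (f d : ℝ) ≤ A * d / Real.logb 2 d := by
  intro A hA
  obtain ⟨N, hN⟩ := exists_nat_gt (8 / (A - 8))
  have hA8 : 0 < A - 8 := by linarith
  have hNpos : 0 < (N : ℝ) := lt_of_le_of_lt (by positivity) hN
  have hN1 : 1 ≤ N := by exact_mod_cast hNpos
  have hlimlt : 8 * ((N : ℝ) + 1) / N < A := by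
    rw [div_lt_iff₀ hNpos]
    rw [div_lt_iff₀ hA8] at hN
    nlinarith
  have hev : ∀ᶠ k : ℕ in atTop, g N k < A :=
    (g_tendsto N hN1).eventually (gt_mem_nhds hlimlt)
  obtain ⟨K, hK⟩ := eventually_atTop.1 hev
  rw [eventually_atTop]
  refine ⟨2 ^ (8 * (N + 1) * (K + 1)), fun d hd => ?_⟩
  have hd0 : d ≠ 0 := by
    have : 0 < 2 ^ (8 * (N + 1) * (K + 1)) := by positivity
    omega
  set l := Nat.log 2 d with hl
  have h1 : 2 ^ l ≤ d := Nat.pow_log_le_self 2 hd0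
  have h2 : d < 2 ^ (l + 1) := Nat.lt_pow_succ_log_self (by norm_num) d
  set k := l / (8 * (N + 1)) with hk
  have hM : 0 < 8 * (N + 1) := by positivity
  have hlK : 8 * (N + 1) * (K + 1) ≤ l := by
    rw [hl]
    exact Nat.le_log_of_pow_le (by norm_num) hd
  have hkK : K + 1 ≤ k := by
    rw [hk, Nat.le_div_iff_mul_le hM, mul_comm]
    exact hlK
  have hk1 : 1 ≤ k := by omega
  have hkl : 8 * (N + 1) * k ≤ l := Nat.mul_div_le l _
  have hlk : l < 8 * (N + 1) * (k + 1) := Nat.lt_mul_div_succ l hM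
  have hf := bound N k d l hN1 hk1 h1 h2 hkl
  have hg := hK k (by omega)
  have hkR : (0 : ℝ) < k := by exact_mod_cast hk1
  have hdR : (0 : ℝ) < d := by
    have : 0 < d := Nat.pos_of_ne_zero hd0
    exact_mod_cast this
  -- bound of f in reals
  have h4k : 4 * k ≤ l := by
    have : 8 * (N + 1) * k = 8 * N * k + 8 * k := by ring
    omega
  have hfR : (f d : ℝ) ≤ d * (1 / ((N : ℝ) * k) + (4 * (N * k) + 5) * 128 / 16 ^ k) := by
    have e1 : (f d : ℝ) ≤ ((d / (N * k) + (4 * (N * k) + 5) * 128 * 2 ^ (l - 4 * k) : ℕ) : ℝ) := by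
      exact_mod_cast hf
    push_cast at e1
    have e2 : ((d / (N * k) : ℕ) : ℝ) ≤ (d : ℝ) / (N * k) := by
      have := @Nat.cast_div_le ℝ _ _ _ d (N * k)
      push_cast at this
      exact this
    have e3 : (2 : ℝ) ^ (l - 4 * k) ≤ d / 16 ^ k := by
      rw [le_div_iff₀ (by positivity)]
      have : (2 : ℝ) ^ (l - 4 * k) * 16 ^ k = 2 ^ l := by
        rw [show (16 : ℝ) = 2 ^ 4 by norm_num, ← pow_mul, ← pow_add]
        congr 1; omega
      rw [this]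
      exact_mod_cast h1
    have e4 : ((4 : ℝ) * (N * k) + 5) * 128 * 2 ^ (l - 4 * k) ≤
        (4 * (N * k) + 5) * 128 * (d / 16 ^ k) :=
      mul_le_mul_of_nonneg_left e3 (by positivity)
    calc (f d : ℝ) ≤ _ := e1
      _ ≤ (d : ℝ) / (N * k) + (4 * (N * k) + 5) * 128 * (d / 16 ^ k) := add_le_add e2 e4
      _ = d * (1 / ((N : ℝ) * k) + (4 * (N * k) + 5) * 128 / 16 ^ k) := by
        field_simp
  -- logarithm
  have hlog : Real.logb 2 d < 8 * (N + 1) * (k + 1) := by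
    have e1 : Real.logb 2 d < (l + 1 : ℕ) := by
      rw [Real.logb_lt_iff_lt_rpow (by norm_num) hdR, Real.rpow_natCast]
      exact_mod_cast h2
    have e2 : ((l + 1 : ℕ) : ℝ) ≤ 8 * (N + 1) * (k + 1) := by
      have : l + 1 ≤ 8 * (N + 1) * (k + 1) := hlk
      exact_mod_cast this
    linarith
  have hd2 : 2 ≤ d := by
    have e1 : 2 ^ 1 ≤ 2 ^ (8 * (N + 1) * (K + 1)) :=
      Nat.pow_le_pow_right (by norm_num) (Nat.mul_pos hM (by omega))
    omega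
  have hlogpos : 0 < Real.logb 2 d := by
    apply Real.logb_pos (by norm_num)
    have : (2 : ℝ) ≤ d := by exact_mod_cast hd2
    linarith
  rw [le_div_iff₀ hlogpos]
  have hf0 : 0 ≤ 1 / ((N : ℝ) * k) + (4 * (N * k) + 5) * 128 / 16 ^ k := by positivity
  calc (f d : ℝ) * Real.logb 2 d
      ≤ (d * (1 / ((N : ℝ) * k) + (4 * (N * k) + 5) * 128 / 16 ^ k)) *
        (8 * (N + 1) * (k + 1)) :=
        mul_le_mul hfR hlog.le hlogpos.le (by positivity)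
    _ = d * g N k := by unfold g; ring
    _ ≤ d * A := mul_le_mul_of_nonneg_left hg.le hdR.le
    _ = A * d := by ring

end Pool.Agent.Results.MP_fd3312_co.SublinearUpperBound
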